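import Pool.Agent.H25.CFL.Targets
import Pool.Agent.H54.CL.Types

set_option autoImplicit false

open Ordinal Cardinal Order Set
open scoped ZFSet

universe u

namespace Pool.Agent.H97.HCL

open _root_.HD Pool.Agent.H25.CFL

theorem pf_B2 (hB1 : Pool.Agent.H25.CFL.T_B1.{u}) (hTG : Pool.Agent.H25.CFL.T_TG.{u})
    (hRC : Pool.Agent.H25.CFL.T_RC1.{u}) : Pool.Agent.H25.CFL.T_B2.{u} := by
  intro D g hD hg
  have hg0 : ℵ₀ ≤ g := by
    exact (hD.2.2.1.trans hg).le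
  have hreg : RegHOD (hs g.ord) := Pool.Agent.H54.CL.hs_reg hg0
  have hlt : g.ord < hs g.ord := Pool.Agent.H54.CL.hs_gt _
  have hDg : D.ord < g.ord := Cardinal.ord_lt_ord.2 hg
  rcases hB1 D (hs g.ord) hD hreg (hDg.trans hlt) with h | ⟨th, hL, hcof⟩
  · exact Or.inl h
  by_cases hc : (hs g.ord).cof = ℵ₀
  · exact Or.inl hc
  right
  have hinf : ℵ₀ < (hs g.ord).cof := lt_of_le_of_ne (Ordinal.aleph0_le_cof.2 hreg.1) (Ne.symm hc)
  have hle : ∀ a, RegHOD a → a < hs g.ord → a ≤ g.ord := by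
    intro a ha hag
    by_contra hcon
    have h0 : 0 < a := bot_le.trans_lt (not_le.1 hcon)
    exact hRC a ha g.ord (not_le.1 hcon) (Pool.Agent.H54.CL.onto_of_lt_hs h0 hag)
  have h1 : th ≤ g.ord := by
    by_contra hcon
    obtain ⟨a, ha1, ha2, ha3, -⟩ := hL.unb ℵ₀ isRegular_aleph0 hinf hD.2.2.1 g.ord (not_le.1 hcon)
    exact absurd (hle a ha3 (ha2.trans_le hL.le)) (not_le.2 ha1)
  have h2 : g.ord ≤ th := by
    by_contra hcon
    obtain ⟨t, ht1, ht2, ht3, ht4⟩ := hTG D g hD hg th (not_le.1 hcon)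
    have := hL.top t ht1.le (ht2.trans hlt) ht3
    rw [ht4] at this
    exact absurd hinf (not_lt.2 this)
  have h3 : th = g.ord := le_antisymm h1 h2
  exact hL.cof.symm.trans (congrArg Ordinal.cof h3)

end Pool.Agent.H97.HCL
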