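import Pool.Agent.H25.CFL.Targets
import Pool.Agent.H54.CL.Types

set_option autoImplicit false

open Ordinal Cardinal Order Set
open scoped ZFSet

universe u

namespace Pool.Agent.H97.HCL

open _root_.HD Pool.Agent.H25.CFL

theorem pf_RC1 : T_RC1.{u} := fun _ ha _ hb h => ha.2 (Pool.Agent.H54.CL.sing_of_onto hb h)

end Pool.Agent.H97.HCL
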